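import Pool.Agent.Y377.IL.Stm

/-!
Algebraic elements of finite extensions (`S_FB` of `Pool.Agent.Y377.IL.Stm`).
-/

set_option autoImplicit false

namespace Pool.Agent.Y108.IL

open Pool.Agent.Y377.EL Pool.Agent.Y377.IL

variable {K : Type} [Field K] [Algebra ℂ K]

/-- the trace commutes with the derivation -/
theorem D_trace (D : Derivation ℂ K K) (L : IntermediateField ℂ K) (F : IntermediateField L K)
    [FiniteDimensional L F] (hL : ∀ x ∈ L, D x ∈ L) (hF : ∀ x ∈ F, D x ∈ F) (x : F) :
    D ((Algebra.trace L F x : L) : K) = ((Algebra.trace L F ⟨D x, hF x x.2⟩ : L) : K) := by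
  classical
  let b := Module.finBasis L F
  let dL : L → L := fun c => ⟨D c, hL c c.2⟩
  let dF : F → F := fun y => ⟨D y, hF y y.2⟩
  have hdFadd : ∀ y z : F, dF (y + z) = dF y + dF z := fun y z => Subtype.ext (by
    change D ((y : K) + z) = D y + D z
    exact map_add D _ _)
  have hdF0 : dF 0 = 0 := Subtype.ext (by
    change D (0 : K) = 0
    exact map_zero D)
  have hdFsmul : ∀ (c : L) (y : F), dF (c • y) = c • dF y + dL c • y := fun c y =>
    Subtype.ext (by
      change D ((c : K) * (y : K)) = (c : K) * D y + D c * (y : K)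
      rw [D.leibniz, smul_eq_mul, smul_eq_mul, mul_comm (y : K)])
  have hdFmul : ∀ y z : F, dF (y * z) = y * dF z + dF y * z := fun y z => Subtype.ext (by
      change D ((y : K) * (z : K)) = (y : K) * D z + D y * (z : K)
      rw [D.leibniz, smul_eq_mul, smul_eq_mul, mul_comm (z : K)])
  have hsum : ∀ (s : Finset (Fin (Module.finrank L F))) (g : Fin (Module.finrank L F) → F),
      dF (∑ i ∈ s, g i) = ∑ i ∈ s, dF (g i) := by
    intro s g
    induction s using Finset.induction_on with
    | empty => simpa using hdF0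
    | insert i s hi ih => rw [Finset.sum_insert hi, Finset.sum_insert hi, hdFadd, ih]
  -- coordinates of the derivative
  have hP : ∀ (y : F) (j : Fin (Module.finrank L F)), b.repr (dF y) j =
      dL (b.repr y j) + ∑ i, b.repr y i * b.repr (dF (b i)) j := by
    intro y j
    have h1 : dF y = ∑ i, (b.repr y i • dF (b i) + dL (b.repr y i) • b i) := by
      conv_lhs => rw [← b.sum_repr y]
      rw [hsum]
      exact Finset.sum_congr rfl fun i _ => hdFsmul _ _
    rw [h1, map_sum]
    simp only [map_add, map_smul, Module.Basis.repr_self]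
    rw [Finsupp.finsetSum_apply]
    simp only [Finsupp.add_apply, Finsupp.smul_apply, smul_eq_mul, Finsupp.single_apply,
      mul_ite, mul_one, mul_zero]
    rw [Finset.sum_add_distrib, Finset.sum_ite_eq' Finset.univ j]
    simp only [Finset.mem_univ, if_true]
    rw [add_comm]
  have hM : ∀ y : F, Algebra.trace L F y = ∑ j, b.repr (y * b j) j := by
    intro y
    rw [Algebra.trace_eq_matrix_trace b, Matrix.trace]
    refine Finset.sum_congr rfl fun j _ => ?_
    rw [Matrix.diag_apply, Algebra.leftMulMatrix_eq_repr_mul]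
  have hmul : ∀ (y z : F) (j : Fin (Module.finrank L F)),
      b.repr (y * z) j = ∑ k, b.repr (y * b k) j * b.repr z k := by
    intro y z j
    have := congrFun (Algebra.leftMulMatrix_mulVec_repr b y z) j
    rw [← this, Matrix.mulVec, dotProduct]
    refine Finset.sum_congr rfl fun k _ => ?_
    rw [Algebra.leftMulMatrix_eq_repr_mul]
  have hkey : Algebra.trace L F (dF x) = ∑ j, dL (b.repr (x * b j) j) := by
    rw [hM]
    have h1 : ∀ j, b.repr (dF x * b j) j = dL (b.repr (x * b j) j)
        + ∑ i, b.repr (x * b j) i * b.repr (dF (b i)) j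
        - ∑ k, b.repr (x * b k) j * b.repr (dF (b j)) k := by
      intro j
      have h2 : dF x * b j = dF (x * b j) - x * dF (b j) := by rw [hdFmul]; ring
      rw [h2, map_sub, Finsupp.sub_apply, hP, hmul x (dF (b j)) j]
    simp only [h1]
    rw [Finset.sum_sub_distrib, Finset.sum_add_distrib, Finset.sum_comm (f := fun j i =>
      b.repr (x * b j) i * b.repr (dF (b i)) j)]
    ring
  have hdLsum : D ((∑ j, b.repr (x * b j) j : L) : K) =
      ((∑ j, dL (b.repr (x * b j) j) : L) : K) := by
    have e1 : ((∑ j, b.repr (x * b j) j : L) : K) = ∑ j, ((b.repr (x * b j) j : L) : K) := by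
      push_cast; rfl
    have e2 : ((∑ j, dL (b.repr (x * b j) j) : L) : K) =
        ∑ j, ((dL (b.repr (x * b j) j) : L) : K) := by
      push_cast; rfl
    rw [e1, e2, map_sum]
  calc D ((Algebra.trace L F x : L) : K) = D ((∑ j, b.repr (x * b j) j : L) : K) := by rw [hM x]
    _ = ((∑ j, dL (b.repr (x * b j) j) : L) : K) := hdLsum
    _ = ((Algebra.trace L F (dF x) : L) : K) := by rw [hkey]

/-- the subalgebra `S` as an algebra over `R'` -/
def overS (R' S : Subalgebra ℂ K) (h : R' ≤ S) : Subalgebra R' K where
  carrier := S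
  mul_mem' := S.mul_mem
  add_mem' := S.add_mem
  algebraMap_mem' := fun r => h r.2

/-- the trace of an algebraic element is algebraic -/
theorem alg_trace (R : Subalgebra ℂ K) (L : IntermediateField ℂ K) (hRL : ∀ x ∈ R, x ∈ L)
    (F : IntermediateField L K) [FiniteDimensional L F] (x : F) (hx : IsAlgebraic R (x : K)) :
    IsAlgebraic R ((Algebra.trace L F x : L) : K) := by
  let i1 : Algebra R L := RingHom.toAlgebra
    { toFun := fun r => ⟨r, hRL r r.2⟩
      map_one' := rfl
      map_mul' := fun _ _ => rfl
      map_zero' := rfl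
      map_add' := fun _ _ => rfl }
  let i2 : Algebra R F := ((algebraMap L F).comp (algebraMap R L)).toAlgebra
  have i3 : IsScalarTower R L F := IsScalarTower.of_algebraMap_eq fun _ => rfl
  have i4 : IsScalarTower R F K := IsScalarTower.of_algebraMap_eq fun _ => rfl
  have i5 : IsScalarTower R L K := IsScalarTower.of_algebraMap_eq fun _ => rfl
  obtain ⟨r, hr, hint⟩ := hx.exists_integral_multiple
  have h1 : IsIntegral R (r • x : F) := by
    have h2 : algebraMap F K (r • x) = r • (x : K) := by
      rw [Algebra.smul_def, map_mul, ← IsScalarTower.algebraMap_apply, Algebra.smul_def]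
      rfl
    rw [← isIntegral_algebraMap_iff (B := K) (algebraMap F K).injective, h2]
    exact hint
  have h2 := Algebra.isIntegral_trace (L := L) h1
  have h3 : Algebra.trace L F (r • x) = r • Algebra.trace L F x := by
    have e : (r • x : F) = (algebraMap R L r) • x := by
      rw [Algebra.smul_def, Algebra.smul_def, ← IsScalarTower.algebraMap_apply]
    rw [e, map_smul, Algebra.smul_def, Algebra.smul_def]
    rfl
  rw [h3] at h2
  have h4 : IsIntegral R (r • ((Algebra.trace L F x : L) : K)) := by
    have h5 := h2.map (IsScalarTower.toAlgHom R L K)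
    have e : (IsScalarTower.toAlgHom R L K) (r • Algebra.trace L F x) =
        r • ((Algebra.trace L F x : L) : K) := by
      rw [map_smul]
      rfl
    rwa [e] at h5
  exact IsAlgebraic.iff_exists_smul_integral.2 ⟨r, hr, h4⟩

theorem t_FB : S_FB := by
  classical
  intro K _ _ D R R' S hRR' hR'S hDR hDR' hDS hsim hnoe hfg1 hfg2
  obtain ⟨N1, hN1, hN1mem⟩ := hfg1
  obtain ⟨NS, ⟨G, hG⟩, hNSmem⟩ := hfg2
  let L : IntermediateField ℂ K := frac R'
  have hR'L : ∀ x ∈ R', x ∈ L := fun x hx => le_frac R' hx
  have hRL : ∀ x ∈ R, x ∈ L := fun x hx => hR'L x (hRR' hx)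
  have hGS : ∀ g ∈ G, g ∈ S := fun g hg => (hNSmem g).1 (hG ▸ Submodule.subset_span hg)
  have hint : ∀ g ∈ S, IsAlgebraic R' g := by
    intro g hg
    have h1 : (Subalgebra.toSubmodule (overS R' S hR'S)) = NS := by
      ext x
      rw [hNSmem]
      rfl
    have h2 : (Subalgebra.toSubmodule (overS R' S hR'S)).FG := by
      rw [h1]
      exact ⟨G, hG⟩
    exact (IsIntegral.of_mem_of_fg (overS R' S hR'S) h2 g hg).isAlgebraic
  have hintL : ∀ g ∈ S, IsIntegral L g := by
    intro g hg
    have h1 : IsAlgebraic L.toSubalgebra g := alg_mono (S := L.toSubalgebra) hR'L (hint g hg)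
    exact IsAlgebraic.isIntegral (K := L) h1
  let F : IntermediateField L K := IntermediateField.adjoin L (G : Set K)
  have hFfin : FiniteDimensional L F :=
    IntermediateField.finiteDimensional_adjoin (S := (G : Set K))
      (fun x hx => hintL x (hGS x hx))
  have hLF : ∀ x ∈ L, x ∈ F := fun x hx => F.algebraMap_mem (⟨x, hx⟩ : L)
  have hSF : ∀ x ∈ S, x ∈ F := by
    intro x hx
    have hx1 : x ∈ Submodule.span R' (G : Set K) := by
      rw [hG]
      exact (hNSmem x).2 hx
    induction hx1 using Submodule.span_induction with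
    | mem y hy => exact IntermediateField.subset_adjoin L _ hy
    | zero => exact F.zero_mem
    | add y z hy hz ihy ihz =>
      exact F.add_mem (ihy ((hNSmem y).1 (hG ▸ hy))) (ihz ((hNSmem z).1 (hG ▸ hz)))
    | smul c y hy ih =>
      have h1 := ih ((hNSmem y).1 (hG ▸ hy))
      rw [Algebra.smul_def]
      exact F.mul_mem (hLF _ (hR'L _ c.2)) h1
  have hDL : ∀ x ∈ L, D x ∈ L := fun x hx => stab_frac hDR' hx
  have hDF : ∀ x ∈ F, D x ∈ F := by
    intro x hx
    induction hx using IntermediateField.adjoin_induction with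
    | mem y hy => exact hSF _ (hDS y (hGS y hy))
    | algebraMap y => exact hLF _ (hDL _ y.2)
    | add y z _ _ hy hz =>
      rw [map_add]
      exact F.add_mem hy hz
    | inv y hy' hy =>
      rw [D.leibniz_inv, smul_eq_mul]
      exact F.mul_mem (F.neg_mem (_root_.pow_mem (F.inv_mem hy') 2)) hy
    | mul y z hy' hz' hy hz =>
      rw [D.leibniz, smul_eq_mul, smul_eq_mul]
      exact F.add_mem (F.mul_mem hy' hz) (F.mul_mem hz' hy)
  -- the trace
  obtain ⟨T, hT⟩ := LinearMap.exists_extend (p := Subalgebra.toSubmodule F.toSubalgebra)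
    (Algebra.trace L F)
  have hTF : ∀ x : F, T (x : K) = Algebra.trace L F x := fun x => LinearMap.congr_fun hT x
  have hTD : ∀ x ∈ F, D (T x : K) = (T (D x) : K) := by
    intro x hx
    have h1 := D_trace D L F hDL hDF ⟨x, hx⟩
    rw [← hTF, ← hTF] at h1
    exact h1
  have hTsmul : ∀ (c : K) (hc : c ∈ L) (x : K), (T (c * x) : K) = c * T x := by
    intro c hc x
    have h1 := T.map_smul (⟨c, hc⟩ : L) x
    have h2 : ((⟨c, hc⟩ : L) • x : K) = c * x := rfl
    rw [h2] at h1
    rw [h1]
    rfl
  -- the trace of the elements of `S`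
  let N : Submodule R' K := Submodule.span R' ((fun g => (T g : K)) '' (G : Set K))
  have hTN : ∀ x ∈ S, (T x : K) ∈ N := by
    intro x hx
    have hx1 : x ∈ Submodule.span R' (G : Set K) := by
      rw [hG]
      exact (hNSmem x).2 hx
    clear hx
    induction hx1 using Submodule.span_induction with
    | mem y hy => exact Submodule.subset_span ⟨y, hy, rfl⟩
    | zero =>
      rw [map_zero]
      exact N.zero_mem
    | add y z _ _ ihy ihz =>
      rw [map_add]
      exact N.add_mem ihy ihz
    | smul c y _ ih =>
      have h1 := N.smul_mem c ih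
      rw [Algebra.smul_def] at h1 ⊢
      change (T ((c : K) * y) : K) ∈ N
      rw [hTsmul c (hR'L c c.2)]
      exact h1
  have hNfg : N.FG := Submodule.fg_span (G.finite_toSet.image _)
  have hNL : ∀ x ∈ N, x ∈ frac R' := by
    intro x hx
    induction hx using Submodule.span_induction with
    | mem y hy =>
      obtain ⟨g, -, rfl⟩ := hy
      exact (T g).2
    | zero => exact (frac R').zero_mem
    | add y z _ _ ihy ihz => exact (frac R').add_mem ihy ihz
    | smul c y _ ih =>
      rw [Algebra.smul_def]
      exact (frac R').mul_mem (hR'L _ c.2) ih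
  have hND : ∀ x ∈ N, D x ∈ N := by
    intro x hx
    induction hx using Submodule.span_induction with
    | mem y hy =>
      obtain ⟨g, hg, rfl⟩ := hy
      change D (T g : K) ∈ N
      rw [hTD g (hSF g (hGS g hg))]
      exact hTN _ (hDS g (hGS g hg))
    | zero =>
      rw [map_zero]
      exact N.zero_mem
    | add y z _ _ ihy ihz =>
      rw [map_add]
      exact N.add_mem ihy ihz
    | smul c y hy ih =>
      have h1 := N.smul_mem c ih
      have h2 := N.smul_mem (⟨D c, hDR' c c.2⟩ : R') hy
      have h3 : D (c • y) = c • D y + (⟨D c, hDR' c c.2⟩ : R') • y := by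
        change D ((c : K) * y) = (c : K) * D y + D c * y
        rw [D.leibniz, smul_eq_mul, smul_eq_mul, mul_comm y]
      rw [h3]
      exact N.add_mem h1 h2
  have hTR' : ∀ x ∈ S, (T x : K) ∈ R' := fun x hx =>
    DSimple.mem_of_fg hsim hDR' hND hNfg hNL (hTN x hx)
  have hTalg : ∀ x ∈ S, IsAlgebraic R x → IsAlgebraic R (T x : K) := by
    intro x hx hxa
    have h1 := alg_trace R L hRL F ⟨x, hSF x hx⟩ hxa
    rw [← hTF] at h1
    exact h1
  -- the algebraic elements
  let S1 : Subalgebra ℂ K := S ⊓ algC R
  have hTS1 : ∀ x ∈ S1, (T x : K) ∈ N1 := fun x hx =>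
    (hN1mem _).2 ⟨hTR' x hx.1, hTalg x hx.1 hx.2⟩
  let V : Subalgebra L K := Algebra.adjoin L (S1 : Set K)
  have hVspan : Subalgebra.toSubmodule V = Submodule.span L (S1 : Set K) := by
    have h1 : (Submonoid.closure (S1 : Set K) : Set K) = S1 := by
      have : Submonoid.closure (S1 : Set K) = S1.toSubmonoid :=
        Submonoid.closure_eq S1.toSubmonoid
      rw [this]
      rfl
    rw [Algebra.adjoin_eq_span, h1]
  have hVF : ∀ x ∈ V, x ∈ F := by
    intro x hx
    have h1 : V ≤ F.toSubalgebra := Algebra.adjoin_le fun y hy => hSF y hy.1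
    exact h1 hx
  have hVfin : FiniteDimensional L V := by
    have h1 : FiniteDimensional L (Subalgebra.toSubmodule F.toSubalgebra) := hFfin
    exact Submodule.finiteDimensional_of_le (S₁ := Subalgebra.toSubmodule V)
      (S₂ := Subalgebra.toSubmodule F.toSubalgebra) hVF
  let B : LinearMap.BilinForm L V := LinearMap.mk₂ L (fun x y : V => T ((x : K) * (y : K)))
    (fun x y z => by
      change T (((x : K) + (y : K)) * (z : K)) = _
      rw [add_mul, map_add])
    (fun c x y => by
      change T ((c • (x : K)) * (y : K)) = _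
      rw [smul_mul_assoc, map_smul])
    (fun x y z => by
      change T ((x : K) * ((y : K) + (z : K))) = _
      rw [mul_add, map_add])
    (fun c x y => by
      change T ((x : K) * (c • (y : K))) = _
      rw [mul_smul_comm, map_smul])
  have hBapp : ∀ x y : V, B x y = T ((x : K) * (y : K)) := fun x y => rfl
  have hT1 : T 1 ≠ 0 := by
    have h1 : T ((1 : F) : K) = Algebra.trace L F 1 := hTF 1
    have h2 : Algebra.trace L F (algebraMap L F 1) = Module.finrank L F • (1 : L) :=
      Algebra.trace_algebraMap _
    rw [map_one] at h2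
    have h3 : T 1 = Module.finrank L F • (1 : L) := by
      rw [← h2, ← h1]
      rfl
    rw [h3, nsmul_one]
    exact Nat.cast_ne_zero.2 Module.finrank_pos.ne'
  have hsep : ∀ x : V, (∀ y : V, B x y = 0) → x = 0 := by
    intro x hx
    by_contra hx0
    have hx0' : (x : K) ≠ 0 := fun h => hx0 (Subtype.ext h)
    have halg : IsAlgebraic L (x : K) := by
      have h0 : IsIntegral L x := Algebra.IsIntegral.isIntegral x
      exact (h0.map V.val).isAlgebraic
    have hinv : (x : K)⁻¹ ∈ V := Subalgebra.inv_mem_of_algebraic V (x := x) halg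
    have h1 := hx ⟨(x : K)⁻¹, hinv⟩
    rw [hBapp] at h1
    change T ((x : K) * (x : K)⁻¹) = 0 at h1
    rw [mul_inv_cancel₀ hx0'] at h1
    exact hT1 h1
  have hB : B.Nondegenerate := by
    refine ⟨hsep, fun y hy => hsep y fun z => ?_⟩
    rw [hBapp, mul_comm, ← hBapp]
    exact hy z
  -- a basis in `S1`
  let s : Set V := {v | (v : K) ∈ S1}
  have hs : ⊤ ≤ Submodule.span L s := by
    rintro ⟨v, hv⟩ -
    have hv1 : v ∈ Submodule.span L (S1 : Set K) := by
      rw [← hVspan]
      exact hv
    clear_value V
    induction hv1 using Submodule.span_induction with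
    | mem y hy => exact Submodule.subset_span hy
    | zero => exact Submodule.zero_mem _
    | add y z hy hz ihy ihz =>
      have hy' : y ∈ V := by
        have : y ∈ Subalgebra.toSubmodule V := by rw [hVspan]; exact hy
        exact this
      have hz' : z ∈ V := by
        have : z ∈ Subalgebra.toSubmodule V := by rw [hVspan]; exact hz
        exact this
      exact Submodule.add_mem _ (ihy hy') (ihz hz')
    | smul c y hy ih =>
      have hy' : y ∈ V := by
        have : y ∈ Subalgebra.toSubmodule V := by rw [hVspan]; exact hy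
        exact this
      exact Submodule.smul_mem _ c (ih hy')
  let b := Module.Basis.ofSpan hs
  have hfinι := Module.Finite.finite_basis b
  have := Fintype.ofFinite ((linearIndepOn_empty L (id : V → V)).extend (Set.empty_subset s))
  have hbS1 : ∀ i, ((b i : V) : K) ∈ S1 := fun i =>
    Module.Basis.ofSpan_subset hs (Set.mem_range_self i)
  let b' := B.dualBasis hB b
  let P : Submodule R K := N1 * Submodule.span R (Set.range fun i => ((b' i : V) : K))
  have hP : P.FG := hN1.mul (Submodule.fg_span (Set.finite_range _))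
  let NS1 : Submodule R K :=
    { carrier := S1
      add_mem' := S1.add_mem
      zero_mem' := S1.zero_mem
      smul_mem' := fun c x hx => by
        have hc : (c : K) ∈ S1 := ⟨hR'S (hRR' c.2), alg_of_mem c.2⟩
        have := S1.mul_mem hc hx
        rw [Algebra.smul_def]
        exact this }
  have hle : NS1 ≤ P := by
    intro x hx
    have hx' : x ∈ S1 := hx
    have hxV : x ∈ V := Algebra.subset_adjoin hx'
    have h1 := b'.sum_repr ⟨x, hxV⟩
    have h2 : ∑ i, ((b'.repr ⟨x, hxV⟩ i : L) : K) * ((b' i : V) : K) = x := by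
      have h3 := congrArg (fun v : V => (v : K)) h1
      simp only [AddSubmonoidClass.coe_finsetSum] at h3
      exact h3
    rw [← h2]
    refine Submodule.sum_mem _ fun i _ => ?_
    refine Submodule.mul_mem_mul ?_ (Submodule.subset_span ⟨i, rfl⟩)
    have h4 : b'.repr ⟨x, hxV⟩ i = B ⟨x, hxV⟩ (b i) :=
      LinearMap.BilinForm.dualBasis_repr_apply hB b ⟨x, hxV⟩ i
    rw [h4, hBapp]
    exact hTS1 _ (S1.mul_mem hx' (hbS1 i))
  exact ⟨NS1, Submodule.FG.of_le hP hle, fun x => Iff.rfl⟩

end Pool.Agent.Y108.IL
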